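import Mathlib

/-!
The triple product property for three subgroups of `SL(n, ℝ)`: a solvable group of lower
triangular matrices, the upper unitriangular matrices, and `SO(n)`.
-/

set_option autoImplicit false

namespace Q220.SLExp

open Finset Matrix

/-- `Q(X)`, the set of the quotients `x x'⁻¹` of elements of `X`. -/
def quotients {G : Type*} [Group G] (X : Set G) : Set G := {g | ∃ x ∈ X, ∃ x' ∈ X, g = x * x'⁻¹}

/-- The triple product property of three subsets of a group. -/
def TripleProductProperty {G : Type*} [Group G] (S T U : Set G) : Prop :=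
  ∀ s ∈ quotients S, ∀ t ∈ quotients T, ∀ u ∈ quotients U, s * t * u = 1 → s = 1 ∧ t = 1 ∧ u = 1

/-- Hadamard's inequality for columns of length at most one. -/
theorem abs_det_le_one {m : ℕ} (B : Matrix (Fin m) (Fin m) ℝ) (h : ∀ j, ∑ i, B i j ^ 2 ≤ 1) :
    |B.det| ≤ 1 := by
  let E := EuclideanSpace ℝ (Fin m)
  have : Fact (Module.finrank ℝ E = m) := ⟨by simp [E]⟩
  let b : OrthonormalBasis (Fin m) ℝ E := EuclideanSpace.basisFun (Fin m) ℝ
  let v : Fin m → E := fun j => WithLp.toLp 2 (fun i => B i j)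
  have h1 := Orientation.abs_volumeForm_apply_le (b.toBasis.orientation) v
  rw [Orientation.volumeForm_robust _ b rfl] at h1
  have h2 : b.toBasis.det v = B.det := by
    rw [Module.Basis.det_apply]
    congr 1
  rw [h2] at h1
  refine h1.trans (Finset.prod_le_one (fun i _ => norm_nonneg _) fun j _ => ?_)
  rw [EuclideanSpace.norm_eq]
  have h3 : ∑ i, ‖(v j).ofLp i‖ ^ 2 ≤ 1 := by simpa [v] using h j
  calc √(∑ i, ‖(v j).ofLp i‖ ^ 2) ≤ √1 := Real.sqrt_le_sqrt h3
    _ = 1 := Real.sqrt_one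

variable {n : ℕ}

/-- The lower triangular subgroup. -/
def setS (n : ℕ) : Set (SpecialLinearGroup (Fin n) ℝ) :=
  {A | (∀ i j, i < j → A.1 i j = 0) ∧ (∀ i, 0 < A.1 i i) ∧
    ∑ m, ∑ j ∈ Iic m, Real.log (A.1 j j) = 0}

/-- The upper unitriangular subgroup. -/
def setT (n : ℕ) : Set (SpecialLinearGroup (Fin n) ℝ) :=
  {A | ∀ i j, j ≤ i → A.1 i j = if i = j then 1 else 0}

/-- The special orthogonal group. -/
def setU (n : ℕ) : Set (SpecialLinearGroup (Fin n) ℝ) :=
  {A | A.1ᵀ * A.1 = 1}

theorem lower_mul_diag {A B : Matrix (Fin n) (Fin n) ℝ} (hA : ∀ i j, i < j → A i j = 0)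
    (hB : ∀ i j, i < j → B i j = 0) (i : Fin n) : (A * B) i i = A i i * B i i := by
  rw [Matrix.mul_apply]
  refine Finset.sum_eq_single i (fun j _ hj => ?_) (fun h => absurd (mem_univ i) h)
  rcases lt_or_gt_of_ne hj with h | h
  · rw [hB j i h, mul_zero]
  · rw [hA i j h, zero_mul]

theorem upper_mul_diag {A B : Matrix (Fin n) (Fin n) ℝ} (hA : ∀ i j, j < i → A i j = 0)
    (hB : ∀ i j, j < i → B i j = 0) (i : Fin n) : (A * B) i i = A i i * B i i := by
  rw [Matrix.mul_apply]
  refine Finset.sum_eq_single i (fun j _ hj => ?_) (fun h => absurd (mem_univ i) h)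
  rcases lt_or_gt_of_ne hj with h | h
  · rw [hA i j h, zero_mul]
  · rw [hB j i h, mul_zero]

theorem lower_mul {A B : Matrix (Fin n) (Fin n) ℝ} (hA : ∀ i j, i < j → A i j = 0)
    (hB : ∀ i j, i < j → B i j = 0) (i j : Fin n) (hij : i < j) : (A * B) i j = 0 := by
  rw [Matrix.mul_apply]
  refine Finset.sum_eq_zero fun l _ => ?_
  rcases lt_or_ge i l with h | h
  · rw [hA i l h, zero_mul]
  · rw [hB l j (lt_of_le_of_lt h hij), mul_zero]

theorem upper_mul {A B : Matrix (Fin n) (Fin n) ℝ} (hA : ∀ i j, j < i → A i j = 0)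
    (hB : ∀ i j, j < i → B i j = 0) (i j : Fin n) (hij : j < i) : (A * B) i j = 0 := by
  rw [Matrix.mul_apply]
  refine Finset.sum_eq_zero fun l _ => ?_
  rcases lt_or_ge l i with h | h
  · rw [hA i l h, zero_mul]
  · rw [hB l j (lt_of_lt_of_le hij h), mul_zero]

theorem inv_val (A : SpecialLinearGroup (Fin n) ℝ) : (A⁻¹).1 = A.1⁻¹ := by
  have h : A.1 * (A⁻¹).1 = 1 := congrArg Subtype.val (mul_inv_cancel A)
  exact (Matrix.inv_eq_right_inv h).symm

theorem lower_inv {A : SpecialLinearGroup (Fin n) ℝ} (hA : ∀ i j, i < j → A.1 i j = 0) :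
    ∀ i j, i < j → (A⁻¹).1 i j = 0 := by
  intro i j hij
  rw [inv_val]
  have hinv : Invertible A.1 := by
    apply Matrix.invertibleOfIsUnitDet
    rw [A.2]; exact isUnit_one
  have hb : A.1.BlockTriangular OrderDual.toDual := by
    intro a b hab
    exact hA a b (OrderDual.toDual_lt_toDual.1 hab)
  exact Matrix.blockTriangular_inv_of_blockTriangular hb (OrderDual.toDual_lt_toDual.2 hij)

theorem upper_inv {A : SpecialLinearGroup (Fin n) ℝ} (hA : ∀ i j, j < i → A.1 i j = 0) :
    ∀ i j, j < i → (A⁻¹).1 i j = 0 := by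
  intro i j hij
  rw [inv_val]
  have hinv : Invertible A.1 := by
    apply Matrix.invertibleOfIsUnitDet
    rw [A.2]; exact isUnit_one
  have hb : A.1.BlockTriangular id := by
    intro a b hab
    exact hA a b hab
  exact Matrix.blockTriangular_inv_of_blockTriangular hb hij

theorem lower_inv_diag {A : SpecialLinearGroup (Fin n) ℝ} (hA : ∀ i j, i < j → A.1 i j = 0)
    (i : Fin n) : A.1 i i * (A⁻¹).1 i i = 1 := by
  rw [← lower_mul_diag hA (lower_inv hA)]
  have h : A.1 * (A⁻¹).1 = 1 := congrArg Subtype.val (mul_inv_cancel A)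
  rw [h]; simp

theorem upper_inv_diag {A : SpecialLinearGroup (Fin n) ℝ} (hA : ∀ i j, j < i → A.1 i j = 0)
    (i : Fin n) : A.1 i i * (A⁻¹).1 i i = 1 := by
  rw [← upper_mul_diag hA (upper_inv hA)]
  have h : A.1 * (A⁻¹).1 = 1 := congrArg Subtype.val (mul_inv_cancel A)
  rw [h]; simp

theorem quot_S {s : SpecialLinearGroup (Fin n) ℝ} (h : s ∈ quotients (setS n)) : s ∈ setS n := by
  obtain ⟨a, ⟨ha1, ha2, ha3⟩, b, ⟨hb1, hb2, hb3⟩, rfl⟩ := h
  have e : (a * b⁻¹).1 = a.1 * (b⁻¹).1 := rfl
  have hpos : ∀ i, (b⁻¹).1 i i = (b.1 i i)⁻¹ := by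
    intro i
    have := lower_inv_diag hb1 i
    have h0 := hb2 i
    field_simp
    linarith
  have hd : ∀ i, (a * b⁻¹).1 i i = a.1 i i * (b.1 i i)⁻¹ := by
    intro i
    rw [e, lower_mul_diag ha1 (lower_inv hb1), hpos]
  refine ⟨?_, ?_, ?_⟩
  · rw [e]; exact lower_mul ha1 (lower_inv hb1)
  · intro i
    rw [hd]
    exact mul_pos (ha2 i) (inv_pos.2 (hb2 i))
  · have : ∀ j, Real.log ((a * b⁻¹).1 j j) = Real.log (a.1 j j) - Real.log (b.1 j j) := by
      intro j
      rw [hd, Real.log_mul (ha2 j).ne' (inv_ne_zero (hb2 j).ne'), Real.log_inv]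
      ring
    simp_rw [this, sum_sub_distrib, ha3, hb3, sub_zero]

theorem quot_T {s : SpecialLinearGroup (Fin n) ℝ} (h : s ∈ quotients (setT n)) : s ∈ setT n := by
  obtain ⟨a, ha, b, hb, rfl⟩ := h
  have ha1 : ∀ i j, j < i → a.1 i j = 0 := by
    intro i j hij
    rw [ha i j hij.le, if_neg hij.ne']
  have hb1 : ∀ i j, j < i → b.1 i j = 0 := by
    intro i j hij
    rw [hb i j hij.le, if_neg hij.ne']
  have e : (a * b⁻¹).1 = a.1 * (b⁻¹).1 := rfl
  intro i j hij
  rcases hij.lt_or_eq with h | h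
  · rw [e, upper_mul ha1 (upper_inv hb1) i j h, if_neg h.ne']
  · subst h
    rw [e, upper_mul_diag ha1 (upper_inv hb1), if_pos rfl, ha j j le_rfl, if_pos rfl]
    have := upper_inv_diag hb1 j
    rw [hb j j le_rfl, if_pos rfl] at this
    exact this

theorem quot_U {s : SpecialLinearGroup (Fin n) ℝ} (h : s ∈ quotients (setU n)) : s ∈ setU n := by
  obtain ⟨a, ha, b, hb, rfl⟩ := h
  have hinv : (b⁻¹).1 = b.1ᵀ := by
    rw [inv_val]
    exact Matrix.inv_eq_left_inv hb
  have hb' : b.1 * b.1ᵀ = 1 := mul_eq_one_comm.1 hb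
  change (a.1 * (b⁻¹).1)ᵀ * (a.1 * (b⁻¹).1) = 1
  rw [hinv, Matrix.transpose_mul, Matrix.transpose_transpose]
  calc b.1 * a.1ᵀ * (a.1 * b.1ᵀ) = b.1 * (a.1ᵀ * a.1) * b.1ᵀ := by simp only [Matrix.mul_assoc]
    _ = 1 := by rw [ha, Matrix.mul_one, hb']

/-- Leading principal minors of an orthogonal matrix that is lower times upper unitriangular. -/
theorem log_minor_le {s t k : Matrix (Fin n) (Fin n) ℝ} (hs : ∀ i j, i < j → s i j = 0)
    (hpos : ∀ i, 0 < s i i) (ht : ∀ i j, j ≤ i → t i j = if i = j then 1 else 0)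
    (hk : kᵀ * k = 1) (hst : s * t = k) (m : Fin n) : ∑ j ∈ Iic m, Real.log (s j j) ≤ 0 := by
  have hmn : (m : ℕ) + 1 ≤ n := m.2
  let f : Fin (m + 1) ↪ Fin n := Fin.castLEEmb hmn
  have hfi : ∀ i, ((f i : Fin n) : ℕ) = i := fun i => rfl
  have hIic : Iic m = univ.map f := by
    ext j
    simp only [mem_Iic, mem_map, mem_univ, true_and]
    constructor
    · intro h
      exact ⟨⟨j, Nat.lt_succ_of_le h⟩, Fin.ext rfl⟩
    · rintro ⟨i, rfl⟩
      exact Fin.le_def.2 (Nat.le_of_lt_succ i.2)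
  have hmem : ∀ (i : Fin (m + 1)) (l : Fin n), l ∉ univ.map f → f i < l := by
    intro i l hl
    rw [← hIic, mem_Iic, not_le] at hl
    exact lt_of_le_of_lt (Fin.le_def.2 (Nat.le_of_lt_succ i.2)) hl
  have hmul : (s.submatrix f f) * (t.submatrix f f) = k.submatrix f f := by
    ext i j
    rw [Matrix.mul_apply, Matrix.submatrix_apply, ← hst, Matrix.mul_apply]
    simp only [Matrix.submatrix_apply]
    rw [← Finset.sum_map univ f (fun l => s (f i) l * t l (f j))]
    apply Finset.sum_subset (subset_univ _)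
    intro l _ hl
    rw [hs _ _ (hmem i l hl), zero_mul]
  have hdetS : (s.submatrix f f).det = ∏ i, s (f i) (f i) := by
    rw [Matrix.det_of_isLowerTriangular]
    · rfl
    · intro i j hij
      have : i < j := OrderDual.toDual_lt_toDual.1 hij
      exact hs _ _ (by simpa [f] using this)
  have hdetT : (t.submatrix f f).det = 1 := by
    rw [Matrix.det_of_isUpperTriangular]
    · apply Finset.prod_eq_one
      intro i _
      rw [Matrix.submatrix_apply, ht _ _ le_rfl, if_pos rfl]
    · intro i j hij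
      have hij' : j < i := hij
      have h1 : f j < f i := by simpa [f] using hij'
      rw [Matrix.submatrix_apply, ht _ _ h1.le, if_neg h1.ne']
  have hdetK : |(k.submatrix f f).det| ≤ 1 := by
    apply abs_det_le_one
    intro j
    have h1 : ∑ l, k l (f j) ^ 2 = 1 := by
      have := congrFun (congrFun hk (f j)) (f j)
      rw [Matrix.mul_apply, Matrix.one_apply_eq] at this
      rw [← this]
      exact sum_congr rfl fun l _ => by rw [Matrix.transpose_apply, sq]
    rw [← h1]
    have h2 : ∑ i, (k.submatrix f f) i j ^ 2 = ∑ l ∈ univ.map f, k l (f j) ^ 2 := by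
      rw [Finset.sum_map]
      rfl
    rw [h2]
    exact Finset.sum_le_univ_sum_of_nonneg fun l => sq_nonneg _
  rw [← hmul, Matrix.det_mul, hdetS, hdetT, mul_one, abs_of_pos (Finset.prod_pos fun i _ => hpos _)]
    at hdetK
  rw [hIic, Finset.sum_map, ← Real.log_prod (fun i _ => (hpos _).ne')]
  exact Real.log_nonpos (Finset.prod_nonneg fun i _ => (hpos _).le) hdetK

theorem tpp : TripleProductProperty (setS n) (setT n) (setU n) := by
  intro s hs t ht u hu hstu
  have hs := quot_S hs
  have ht := quot_T ht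
  have hu := quot_U hu
  -- `k = u⁻¹` is orthogonal
  have hk : ((u⁻¹).1)ᵀ * (u⁻¹).1 = 1 := by
    have hinv : (u⁻¹).1 = u.1ᵀ := by
      rw [inv_val]
      exact Matrix.inv_eq_left_inv hu
    rw [hinv, Matrix.transpose_transpose]
    exact mul_eq_one_comm.1 hu
  have hst : s * t = u⁻¹ := eq_inv_of_mul_eq_one_left hstu
  have hst' : s.1 * t.1 = (u⁻¹).1 := congrArg Subtype.val hst
  obtain ⟨hs1, hs2, hs3⟩ := hs
  have hle := log_minor_le hs1 hs2 ht hk hst'
  have hzero : ∀ m, ∑ j ∈ Iic m, Real.log (s.1 j j) = 0 := by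
    intro m
    exact (Finset.sum_eq_zero_iff_of_nonpos (fun m _ => hle m)).1 hs3 m (mem_univ m)
  have hlog : ∀ m, Real.log (s.1 m m) = 0 := by
    intro m
    induction m using WellFoundedLT.induction with
    | _ m ih =>
      have h1 := hzero m
      have h2 : Iic m = insert m (Iio m) := by
        ext j
        simp only [mem_Iic, mem_insert, mem_Iio]
        exact le_iff_eq_or_lt
      rw [h2, Finset.sum_insert (by simp)] at h1
      rw [Finset.sum_eq_zero (s := Iio m) (fun j hj => ih j (mem_Iio.1 hj)), add_zero] at h1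
      exact h1
  have hdiag : ∀ m, s.1 m m = 1 := by
    intro m
    exact Real.eq_one_of_pos_of_log_eq_zero (hs2 m) (hlog m)
  -- `v = t⁻¹`, `s = k v`, Gram matrices agree
  have hvT : t⁻¹ ∈ setT n := by
    have h1 : (1 : SpecialLinearGroup (Fin n) ℝ) ∈ setT n := by
      intro i j _
      change (1 : Matrix (Fin n) (Fin n) ℝ) i j = _
      rw [Matrix.one_apply]
    have : t⁻¹ ∈ quotients (setT n) := ⟨1, h1, t, ht, by simp⟩
    exact quot_T this
  set v := t⁻¹ with hv
  have hskv : s.1 = (u⁻¹).1 * v.1 := by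
    have : s = u⁻¹ * t⁻¹ := by rw [← hst]; group
    exact congrArg Subtype.val this
  have hgram : s.1ᵀ * s.1 = v.1ᵀ * v.1 := by
    rw [hskv, Matrix.transpose_mul]
    calc v.1ᵀ * ((u⁻¹).1)ᵀ * ((u⁻¹).1 * v.1) = v.1ᵀ * (((u⁻¹).1)ᵀ * (u⁻¹).1) * v.1 := by
          simp only [Matrix.mul_assoc]
      _ = v.1ᵀ * v.1 := by rw [hk, Matrix.mul_one]
  have hg : ∀ i j, ∑ l, s.1 l i * s.1 l j = ∑ l, v.1 l i * v.1 l j := by
    intro i j
    have := congrFun (congrFun hgram i) j
    simpa [Matrix.mul_apply] using this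
  have hv1 : ∀ i j, j < i → v.1 i j = 0 := by
    intro i j hij
    rw [hvT i j hij.le, if_neg hij.ne']
  have hv2 : ∀ i, v.1 i i = 1 := by
    intro i
    rw [hvT i i le_rfl, if_pos rfl]
  have hind : ∀ i, (∀ l, l ≠ i → s.1 l i = 0) ∧ (∀ j, j ≠ i → v.1 i j = 0) := by
    intro i
    induction i using WellFoundedLT.induction with
    | _ i ih =>
      have hcol : ∀ l, l ≠ i → s.1 l i = 0 := by
        have h1 := hg i i
        have h2 : ∑ l, v.1 l i * v.1 l i = 1 := by
          rw [Finset.sum_eq_single i]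
          · rw [hv2, one_mul]
          · intro l _ hl
            rcases lt_or_gt_of_ne hl with h | h
            · rw [(ih l h).2 i hl.symm, zero_mul]
            · rw [hv1 l i h, zero_mul]
          · exact fun h => absurd (mem_univ i) h
        rw [h2, ← Finset.add_sum_erase univ _ (mem_univ i), hdiag, one_mul] at h1
        have h3 : ∑ l ∈ univ.erase i, s.1 l i * s.1 l i = 0 := by linarith
        rw [Finset.sum_eq_zero_iff_of_nonneg (fun l _ => mul_self_nonneg _)] at h3
        intro l hl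
        exact mul_self_eq_zero.1 (h3 l (mem_erase.2 ⟨hl, mem_univ l⟩))
      refine ⟨hcol, fun j hj => ?_⟩
      rcases lt_or_gt_of_ne hj with h | h
      · exact hv1 i j h
      · have h1 := hg i j
        have h2 : ∑ l, s.1 l i * s.1 l j = 0 := by
          apply Finset.sum_eq_zero
          intro l _
          by_cases hl : l = i
          · rw [hl, hs1 i j h, mul_zero]
          · rw [hcol l hl, zero_mul]
        have h3 : ∑ l, v.1 l i * v.1 l j = v.1 i j := by
          rw [Finset.sum_eq_single i]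
          · rw [hv2, one_mul]
          · intro l _ hl
            rcases lt_or_gt_of_ne hl with h' | h'
            · rw [(ih l h').2 i hl.symm, zero_mul]
            · rw [hv1 l i h', zero_mul]
          · exact fun h => absurd (mem_univ i) h
        rw [h2, h3] at h1
        exact h1.symm
  have hs_one : s = 1 := by
    apply Subtype.ext
    ext i j
    change s.1 i j = (1 : Matrix (Fin n) (Fin n) ℝ) i j
    rw [Matrix.one_apply]
    split_ifs with h
    · rw [h, hdiag]
    · exact (hind j).1 i h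
  have hv_one : v = 1 := by
    apply Subtype.ext
    ext i j
    change v.1 i j = (1 : Matrix (Fin n) (Fin n) ℝ) i j
    rw [Matrix.one_apply]
    split_ifs with h
    · rw [h, hv2]
    · exact (hind i).2 j (Ne.symm h)
  have ht_one : t = 1 := by
    have : t⁻¹ = 1 := hv_one
    exact inv_eq_one.1 this
  refine ⟨hs_one, ht_one, ?_⟩
  rw [hs_one, ht_one, one_mul, one_mul] at hstu
  exact hstu

end Q220.SLExp
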