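import Mathlib
import Pool.Agent.Q220.SLExp.Alg

/-!
Embedded submanifolds of matrix space, and the three submanifolds of `SL(n, ℝ)`.
-/

set_option autoImplicit false

namespace Q220.SLExp

open Finset Matrix Module
open scoped ContDiff Topology

/-- A nonempty subset `M` of the finite-dimensional real space `E` is an embedded smooth submanifold
of dimension `m`: around each point of `M` there is a smooth local diffeomorphism `e` of `E` (onto
an open set, with smooth inverse) in which `M` is an affine subspace of dimension `m`. -/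
def IsEmbSubmanifold {E : Type*} [NormedAddCommGroup E] [NormedSpace ℝ E] (m : ℕ) (M : Set E) :
    Prop :=
  M.Nonempty ∧ ∀ x ∈ M, ∃ e : OpenPartialHomeomorph E E, x ∈ e.source ∧
    ContDiffOn ℝ ∞ e e.source ∧ ContDiffOn ℝ ∞ e.symm e.target ∧
    ∃ W : Submodule ℝ E, finrank ℝ W = m ∧ ∀ y ∈ e.source, (y ∈ M ↔ e y - e x ∈ W)

/-- The space of real `n × n` matrices, as a space of functions. -/
abbrev Mat (n : ℕ) : Type := Fin n → Fin n → ℝ

/-- The entries of an element of `SL(n, ℝ)`. -/
def entries {n : ℕ} (A : SpecialLinearGroup (Fin n) ℝ) : Mat n := fun i j => A.1 i j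

/-- `M` is an embedded smooth submanifold of `SL(n, ℝ)` of dimension `m` (as `SL(n, ℝ)` is itself an
embedded submanifold of the space of matrices, this means that `M` is one of that space). -/
def IsSubmanifold {n : ℕ} (m : ℕ) (M : Set (SpecialLinearGroup (Fin n) ℝ)) : Prop :=
  IsEmbSubmanifold m (entries '' M)

variable {n : ℕ}

theorem mem_entries_image {M : Set (SpecialLinearGroup (Fin n) ℝ)} {A : Mat n} :
    A ∈ entries '' M ↔ ∃ h : (Matrix.of A).det = 1, (⟨Matrix.of A, h⟩ : SpecialLinearGroup (Fin n) ℝ) ∈ M := by
  constructor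
  · rintro ⟨B, hB, rfl⟩
    exact ⟨B.2, hB⟩
  · rintro ⟨h, hM⟩
    exact ⟨_, hM, rfl⟩

/-! ### Index sets and dimensions -/

/-- Pairs `i < j`. -/
abbrev Pairs (n : ℕ) : Type := {p : Fin n × Fin n // p.1 < p.2}

theorem card_pairs (n : ℕ) : 2 * Fintype.card (Pairs n) = n * (n - 1) := by
  have h1 : Fintype.card (Pairs n) = ∑ i : Fin n, (n - 1 - (i : ℕ)) := by
    rw [Fintype.card_subtype, Finset.card_filter, Fintype.sum_prod_type]
    refine sum_congr rfl fun i _ => ?_
    rw [← Fin.card_Ioi i, ← Finset.card_filter]
    congr 1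
    ext j
    simp
  rw [h1, Fin.sum_univ_eq_sum_range (fun i => n - 1 - i) n]
  have h2 := Finset.sum_range_reflect (fun i => i) n
  rw [h2]
  have := Finset.sum_range_id_mul_two n
  omega

/-- Strictly upper triangular matrices. -/
def WT (n : ℕ) : Submodule ℝ (Mat n) where
  carrier := {A | ∀ i j, j ≤ i → A i j = 0}
  add_mem' := by
    intro A B hA hB i j h
    rw [Pi.add_apply, Pi.add_apply, hA i j h, hB i j h, add_zero]
  zero_mem' := by intro i j _; rfl
  smul_mem' := by
    intro c A hA i j h
    rw [Pi.smul_apply, Pi.smul_apply, hA i j h, smul_zero]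

/-- Skew-symmetric matrices. -/
def WU (n : ℕ) : Submodule ℝ (Mat n) where
  carrier := {A | ∀ i j, A i j = -A j i}
  add_mem' := by
    intro A B hA hB i j
    simp only [Pi.add_apply]
    rw [hA i j, hB i j]; ring
  zero_mem' := by intro i j; simp
  smul_mem' := by
    intro c A hA i j
    simp only [Pi.smul_apply, smul_eq_mul]
    rw [hA i j]; ring

/-- Two linear conditions on diagonals. -/
def ell (n : ℕ) : (Fin n → ℝ) →ₗ[ℝ] ℝ × ℝ where
  toFun d := (∑ i, d i, ∑ m, ∑ j ∈ Iic m, d j)
  map_add' := by
    intro a b
    simp [sum_add_distrib]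
  map_smul' := by
    intro c a
    simp [mul_sum]

/-- The model space of the lower triangular group. -/
def WS (n : ℕ) : Submodule ℝ (Mat n) where
  carrier := {A | (∀ i j, i < j → A i j = 0) ∧ (fun i => A i i) ∈ LinearMap.ker (ell n)}
  add_mem' := by
    rintro A B ⟨hA, hA'⟩ ⟨hB, hB'⟩
    refine ⟨fun i j h => ?_, ?_⟩
    · rw [Pi.add_apply, Pi.add_apply, hA i j h, hB i j h, add_zero]
    · exact Submodule.add_mem _ hA' hB'
  zero_mem' := ⟨fun i j _ => rfl, Submodule.zero_mem _⟩
  smul_mem' := by
    rintro c A ⟨hA, hA'⟩
    refine ⟨fun i j h => ?_, ?_⟩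
    · rw [Pi.smul_apply, Pi.smul_apply, hA i j h, smul_zero]
    · exact Submodule.smul_mem _ c hA'

/-- Coordinates on strictly upper triangular matrices. -/
def eqT (n : ℕ) : WT n ≃ₗ[ℝ] (Pairs n → ℝ) where
  toFun A p := A.1 p.1.1 p.1.2
  map_add' A B := rfl
  map_smul' c A := rfl
  invFun c := ⟨fun i j => if h : i < j then c ⟨(i, j), h⟩ else 0, by
    intro i j h
    simp [not_lt.2 h]⟩
  left_inv A := by
    apply Subtype.ext
    funext i j
    simp only
    split_ifs with h
    · rfl
    · exact (A.2 i j (not_lt.1 h)).symm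
  right_inv c := by
    funext p
    simp [p.2]

/-- Coordinates on skew-symmetric matrices. -/
def eqU (n : ℕ) : WU n ≃ₗ[ℝ] (Pairs n → ℝ) where
  toFun A p := A.1 p.1.1 p.1.2
  map_add' A B := rfl
  map_smul' c A := rfl
  invFun c := ⟨fun i j => if h : i < j then c ⟨(i, j), h⟩ else
      if h : j < i then -c ⟨(j, i), h⟩ else 0, by
    intro i j
    simp only
    rcases lt_trichotomy i j with h | h | h
    · simp [h, not_lt.2 h.le]
    · simp [h]
    · simp [h, not_lt.2 h.le]⟩
  left_inv A := by
    apply Subtype.ext
    funext i j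
    simp only
    split_ifs with h h'
    · rfl
    · exact (A.2 i j).symm
    · have hij : i = j := le_antisymm (not_lt.1 h') (not_lt.1 h)
      subst hij
      have := A.2 i i
      linarith
  right_inv c := by
    funext p
    simp [p.2]

/-- Coordinates on the model space of the lower triangular group. -/
def eqS (n : ℕ) : WS n ≃ₗ[ℝ] (Pairs n → ℝ) × LinearMap.ker (ell n) where
  toFun A := (fun p => A.1 p.1.2 p.1.1, ⟨fun i => A.1 i i, A.2.2⟩)
  map_add' A B := rfl
  map_smul' c A := rfl
  invFun c := ⟨fun i j => if h : j < i then c.1 ⟨(j, i), h⟩ else if i = j then c.2.1 i else 0, by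
    refine ⟨fun i j h => ?_, ?_⟩
    · simp [not_lt.2 h.le, h.ne]
    · have : (fun i : Fin n => (if h : i < i then c.1 ⟨(i, i), h⟩ else
        if i = i then c.2.1 i else 0)) = c.2.1 := by
        funext i
        simp
      rw [this]
      exact c.2.2⟩
  left_inv A := by
    apply Subtype.ext
    funext i j
    simp only
    split_ifs with h h'
    · rfl
    · rw [h']
    · have hij : i < j := lt_of_le_of_ne (not_lt.1 h) h'
      exact (A.2.1 i j hij).symm
  right_inv c := by
    apply Prod.ext
    · funext p
      simp [p.2]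
    · apply Subtype.ext
      funext i
      simp

theorem finrank_WT (n : ℕ) : finrank ℝ (WT n) = Fintype.card (Pairs n) := by
  rw [(eqT n).finrank_eq]; simp

theorem finrank_WU (n : ℕ) : finrank ℝ (WU n) = Fintype.card (Pairs n) := by
  rw [(eqU n).finrank_eq]; simp

theorem ell_surj (hn : 2 ≤ n) : Function.Surjective (ell n) := by
  have : NeZero n := ⟨by omega⟩
  let first : Fin n := ⟨0, by omega⟩
  let last : Fin n := ⟨n - 1, by omega⟩
  have hne : first ≠ last := by
    intro h
    have := congrArg Fin.val h
    simp only [first, last] at this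
    omega
  have hf : ell n (Pi.single first 1) = (1, (n : ℝ)) := by
    simp only [ell, LinearMap.coe_mk, AddHom.coe_mk, Prod.mk.injEq]
    constructor
    · simp
    · have : ∀ m : Fin n, ∑ j ∈ Iic m, (Pi.single first 1 : Fin n → ℝ) j = 1 := by
        intro m
        rw [Finset.sum_eq_single first]
        · simp
        · intro j _ hj; exact Pi.single_eq_of_ne hj _
        · intro h
          exact absurd (mem_Iic.2 (Fin.le_def.2 (Nat.zero_le _))) h
      simp [this]
  have hl : ell n (Pi.single last 1) = (1, 1) := by
    simp only [ell, LinearMap.coe_mk, AddHom.coe_mk, Prod.mk.injEq]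
    constructor
    · simp
    · have : ∀ m : Fin n, ∑ j ∈ Iic m, (Pi.single last 1 : Fin n → ℝ) j = if m = last then 1 else 0 := by
        intro m
        split_ifs with h
        · rw [h, Finset.sum_eq_single last]
          · simp
          · intro j _ hj; exact Pi.single_eq_of_ne hj _
          · intro h
            exact absurd (mem_Iic.2 le_rfl) h
        · apply Finset.sum_eq_zero
          intro j hj
          apply Pi.single_eq_of_ne
          rintro rfl
          apply h
          apply le_antisymm _ (mem_Iic.1 hj)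
          exact Fin.le_def.2 (by have := m.2; simp only [last]; omega)
      simp [this]
  intro p
  have hn1 : (n : ℝ) - 1 ≠ 0 := by
    have : (2 : ℝ) ≤ n := by exact_mod_cast hn
    linarith
  refine ⟨((p.2 - p.1) / (n - 1)) • Pi.single first 1 +
    (p.1 - (p.2 - p.1) / (n - 1)) • Pi.single last 1, ?_⟩
  rw [map_add, map_smul, map_smul, hf, hl]
  apply Prod.ext
  · simp
  · simp only [Prod.smul_mk, smul_eq_mul, mul_one, Prod.mk_add_mk]
    field_simp
    ring

theorem finrank_ker (hn : 2 ≤ n) : finrank ℝ (LinearMap.ker (ell n)) = n - 2 := by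
  have h1 := LinearMap.finrank_range_add_finrank_ker (ell n)
  have h2 : finrank ℝ (LinearMap.range (ell n)) = 2 := by
    rw [LinearMap.range_eq_top.2 (ell_surj hn), finrank_top]
    simp
  rw [h2] at h1
  simp at h1
  omega

theorem finrank_WS (hn : 2 ≤ n) : finrank ℝ (WS n) = Fintype.card (Pairs n) + (n - 2) := by
  rw [(eqS n).finrank_eq, finrank_prod, finrank_ker hn]
  simp

/-! ### The upper unitriangular group -/

theorem submanifold_T : IsSubmanifold (Fintype.card (Pairs n)) (setT n) := by
  refine ⟨⟨entries 1, 1, ?_, rfl⟩, ?_⟩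
  · intro i j _
    change (1 : Matrix (Fin n) (Fin n) ℝ) i j = _
    rw [Matrix.one_apply]
  · rintro _ ⟨B, hB, rfl⟩
    refine ⟨OpenPartialHomeomorph.refl _, Set.mem_univ _, contDiffOn_id, contDiffOn_id, WT n,
      finrank_WT n, fun A _ => ?_⟩
    change _ ↔ A - entries B ∈ WT n
    rw [mem_entries_image]
    constructor
    · rintro ⟨h, hA⟩ i j hij
      have h1 : A i j = if i = j then 1 else 0 := hA i j hij
      have h2 : entries B i j = if i = j then 1 else 0 := hB i j hij
      rw [Pi.sub_apply, Pi.sub_apply, h1, h2, sub_self]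
    · intro h
      have hA : ∀ i j, j ≤ i → A i j = if i = j then 1 else 0 := by
        intro i j hij
        have h1 := h i j hij
        have h2 : entries B i j = if i = j then 1 else 0 := hB i j hij
        rw [Pi.sub_apply, Pi.sub_apply, h2] at h1
        linarith
      refine ⟨?_, hA⟩
      rw [Matrix.det_of_isUpperTriangular]
      · apply Finset.prod_eq_one
        intro i _
        rw [Matrix.of_apply, hA i i le_rfl, if_pos rfl]
      · intro i j hij
        have hij' : j < i := hij
        rw [Matrix.of_apply, hA i j hij'.le, if_neg hij'.ne']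

/-! ### The lower triangular group -/

/-- The chart: logarithms of the diagonal entries. -/
noncomputable def chartS (n : ℕ) : OpenPartialHomeomorph (Mat n) (Mat n) where
  toFun A := fun i j => if i = j then Real.log (A i j) else A i j
  invFun A := fun i j => if i = j then Real.exp (A i j) else A i j
  source := {A | ∀ i, 0 < A i i}
  target := Set.univ
  map_source' := fun _ _ => Set.mem_univ _
  map_target' := by
    intro A _ i
    simp [Real.exp_pos]
  left_inv' := by
    intro A hA
    funext i j
    by_cases h : i = j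
    · subst h
      simp [Real.exp_log (hA i)]
    · simp [h]
  right_inv' := by
    intro A _
    funext i j
    by_cases h : i = j
    · simp [h]
    · simp [h]
  open_source := by
    have : {A : Mat n | ∀ i, 0 < A i i} = ⋂ i, {A | 0 < A i i} := by
      ext A; simp
    rw [this]
    exact isOpen_iInter_of_finite fun i => isOpen_lt continuous_const (by fun_prop)
  open_target := isOpen_univ
  continuousOn_toFun := by
    rw [continuousOn_pi]
    intro i
    rw [continuousOn_pi]
    intro j
    by_cases h : i = j
    · subst h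
      simp only [if_true]
      apply ContinuousOn.log
      · fun_prop
      · intro A hA
        exact (hA i).ne'
    · simp only [h, if_false]
      fun_prop
  continuousOn_invFun := by
    rw [continuousOn_pi]
    intro i
    rw [continuousOn_pi]
    intro j
    by_cases h : i = j
    · simp only [h, if_true]
      fun_prop
    · simp only [h, if_false]
      fun_prop

theorem contDiffOn_chartS : ContDiffOn ℝ ∞ (chartS n) (chartS n).source := by
  change ContDiffOn ℝ ∞ (fun A : Mat n => fun i j => if i = j then Real.log (A i j) else A i j)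
    {A | ∀ i, 0 < A i i}
  rw [contDiffOn_pi]
  intro i
  rw [contDiffOn_pi]
  intro j
  by_cases h : i = j
  · subst h
    simp only [if_true]
    apply ContDiffOn.log
    · fun_prop
    · intro A hA
      exact (hA i).ne'
  · simp only [h, if_false]
    fun_prop

theorem contDiffOn_chartS_symm : ContDiffOn ℝ ∞ (chartS n).symm (chartS n).target := by
  change ContDiffOn ℝ ∞ (fun A : Mat n => fun i j => if i = j then Real.exp (A i j) else A i j)
    Set.univ
  rw [contDiffOn_pi]
  intro i
  rw [contDiffOn_pi]
  intro j
  by_cases h : i = j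
  · simp only [h, if_true]
    fun_prop
  · simp only [h, if_false]
    fun_prop

theorem mem_entries_S {A : Mat n} (hA : ∀ i, 0 < A i i) :
    A ∈ entries '' setS n ↔ chartS n A ∈ WS n := by
  rw [mem_entries_image]
  have hoff : ∀ i j, i < j → (chartS n A) i j = A i j := by
    intro i j hij
    change (if i = j then Real.log (A i j) else A i j) = _
    rw [if_neg hij.ne]
  have hdiag : ∀ i, (chartS n A) i i = Real.log (A i i) := by
    intro i
    change (if i = i then Real.log (A i i) else A i i) = _
    rw [if_pos rfl]
  have hdiag' : (fun i => (chartS n A) i i) = fun i => Real.log (A i i) := funext hdiag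
  have hdet : (∀ i j, i < j → A i j = 0) →
      ((Matrix.of A).det = 1 ↔ ∑ i, Real.log (A i i) = 0) := by
    intro hlow
    have h1 : (Matrix.of A).det = ∏ i, A i i := by
      rw [Matrix.det_of_isLowerTriangular]
      · rfl
      · intro i j hij
        exact hlow i j (OrderDual.toDual_lt_toDual.1 hij)
    rw [h1, ← Real.log_prod (fun i _ => (hA i).ne')]
    constructor
    · intro h; rw [h, Real.log_one]
    · intro h
      exact Real.eq_one_of_pos_of_log_eq_zero (Finset.prod_pos fun i _ => hA i) h
  constructor
  · rintro ⟨hd, h1, -, h3⟩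
    have h1' : ∀ i j, i < j → A i j = 0 := h1
    refine ⟨fun i j hij => by rw [hoff i j hij, h1' i j hij], ?_⟩
    rw [hdiag', LinearMap.mem_ker]
    exact Prod.ext ((hdet h1').1 hd) h3
  · rintro ⟨h1, h2⟩
    have h1' : ∀ i j, i < j → A i j = 0 := fun i j hij => by
      have := h1 i j hij
      rwa [hoff i j hij] at this
    rw [hdiag', LinearMap.mem_ker] at h2
    have h3 : ∑ i, Real.log (A i i) = 0 := congrArg Prod.fst h2
    have h4 : ∑ m, ∑ j ∈ Iic m, Real.log (A j j) = 0 := congrArg Prod.snd h2
    exact ⟨(hdet h1').2 h3, h1', hA, h4⟩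

theorem one_mem_S : (1 : SpecialLinearGroup (Fin n) ℝ) ∈ setS n := by
  have h : ∀ i j, (1 : SpecialLinearGroup (Fin n) ℝ).1 i j = if i = j then 1 else 0 := by
    intro i j
    change (1 : Matrix (Fin n) (Fin n) ℝ) i j = _
    rw [Matrix.one_apply]
  refine ⟨fun i j hij => ?_, fun i => ?_, ?_⟩
  · rw [h, if_neg hij.ne]
  · rw [h, if_pos rfl]; norm_num
  · simp [h]

theorem submanifold_S (hn : 2 ≤ n) :
    IsSubmanifold (Fintype.card (Pairs n) + (n - 2)) (setS n) := by
  refine ⟨⟨entries 1, 1, one_mem_S, rfl⟩, ?_⟩
  rintro _ ⟨B, hB, rfl⟩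
  have hBpos : ∀ i, 0 < entries B i i := hB.2.1
  refine ⟨chartS n, hBpos, contDiffOn_chartS, contDiffOn_chartS_symm, WS n, finrank_WS hn,
    fun A hA => ?_⟩
  have hBW : chartS n (entries B) ∈ WS n := (mem_entries_S hBpos).1 ⟨B, hB, rfl⟩
  rw [mem_entries_S hA]
  constructor
  · intro h
    exact Submodule.sub_mem _ h hBW
  · intro h
    have := Submodule.add_mem _ h hBW
    rwa [sub_add_cancel] at this

end Q220.SLExp
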