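import Mathlib
import Pool.Agent.Q220.SLExp.Charts

/-!
`SO(n)` is an embedded submanifold.
-/

set_option autoImplicit false

namespace Q220.SLExp

open Finset Matrix Module
open scoped ContDiff Topology

/-- Charts from the inverse function theorem. -/
theorem exists_chart {E : Type*} [NormedAddCommGroup E] [NormedSpace ℝ E] [CompleteSpace E]
    {Φ : E → E} (hΦ : ContDiff ℝ ∞ Φ) {x : E} {Φ' : E ≃L[ℝ] E}
    (hΦ' : HasFDerivAt Φ (Φ' : E →L[ℝ] E) x) {U : Set E} (hU : IsOpen U) (hx : x ∈ U) :
    ∃ e : OpenPartialHomeomorph E E, x ∈ e.source ∧ e.source ⊆ U ∧ (e : E → E) = Φ ∧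
      ContDiffOn ℝ ∞ e e.source ∧ ContDiffOn ℝ ∞ e.symm e.target := by
  have hn : (∞ : ℕ∞ω) ≠ 0 := by simp
  let e0 := (hΦ.contDiffAt (x := x)).toOpenPartialHomeomorph Φ hΦ' hn
  have he0 : (e0 : E → E) = Φ := ContDiffAt.toOpenPartialHomeomorph_coe _ hΦ' hn
  have hx0 : x ∈ e0.source := ContDiffAt.mem_toOpenPartialHomeomorph_source _ hΦ' hn
  let V : Set E := {y | fderiv ℝ Φ y ∈ Set.range (ContinuousLinearEquiv.toContinuousLinearMap :
    (E ≃L[ℝ] E) → (E →L[ℝ] E))}
  have hV : IsOpen V := by
    have : Continuous (fderiv ℝ Φ) := hΦ.continuous_fderiv (by simp)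
    exact ContinuousLinearEquiv.isOpen.preimage this
  have hxV : x ∈ V := ⟨Φ', hΦ'.fderiv.symm⟩
  let e := e0.restrOpen (V ∩ U) (hV.inter hU)
  have hes : e.source = e0.source ∩ (V ∩ U) := e0.restrOpen_source _ _
  have hec : (e : E → E) = Φ := he0
  refine ⟨e, ?_, ?_, hec, ?_, ?_⟩
  · rw [hes]; exact ⟨hx0, hxV, hx⟩
  · rw [hes]; exact fun y hy => hy.2.2
  · rw [hec]; exact hΦ.contDiffOn
  · intro b hb
    have hb' : e.symm b ∈ e.source := e.map_target hb
    rw [hes] at hb'
    obtain ⟨L, hL⟩ := hb'.2.1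
    have hd : HasFDerivAt e (L : E →L[ℝ] E) (e.symm b) := by
      rw [hec]
      have h1 : DifferentiableAt ℝ Φ (e.symm b) :=
        (hΦ.differentiable (by simp)).differentiableAt
      have := h1.hasFDerivAt
      rwa [← hL] at this
    have hcd : ContDiffAt ℝ ∞ e (e.symm b) := by
      rw [hec]; exact hΦ.contDiffAt
    exact (e.contDiffAt_symm hb hd hcd).contDiffWithinAt

variable {n : ℕ}

/-- `Φ(A) = (Aᵀ A - 1) / 2 + skew(xᵀ A)`. -/
noncomputable def Phi (x : Mat n) (A : Mat n) : Mat n := fun i j =>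
  ((∑ m, A m i * A m j) - (if i = j then 1 else 0)) / 2 +
    ((∑ m, x m i * A m j) - ∑ m, A m i * x m j) / 2

theorem contDiff_Phi (x : Mat n) : ContDiff ℝ ∞ (Phi x) := by
  unfold Phi
  rw [contDiff_pi]
  intro i
  rw [contDiff_pi]
  intro j
  fun_prop

/-- Multiplication by `xᵀ` as a continuous linear equivalence, for orthogonal `x`. -/
noncomputable def mulT (x : Mat n) (h : (Matrix.of x)ᵀ * Matrix.of x = 1) : Mat n ≃L[ℝ] Mat n :=
  LinearEquiv.toContinuousLinearEquiv
  { toFun := fun H i j => ∑ m, x m i * H m j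
    map_add' := by
      intro H K
      funext i j
      simp [mul_add, sum_add_distrib]
    map_smul' := by
      intro c H
      funext i j
      simp only [Pi.smul_apply, smul_eq_mul, RingHom.id_apply, mul_sum]
      exact sum_congr rfl fun m _ => by ring
    invFun := fun H i j => ∑ m, x i m * H m j
    left_inv := by
      intro H
      have h' : Matrix.of x * (Matrix.of x)ᵀ = 1 := mul_eq_one_comm.1 h
      have h2 : Matrix.of x * ((Matrix.of x)ᵀ * Matrix.of H) = Matrix.of H := by
        rw [← Matrix.mul_assoc, h', Matrix.one_mul]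
      funext i j
      have := congrFun (congrFun h2 i) j
      simpa [Matrix.mul_apply] using this
    right_inv := by
      intro H
      have h2 : (Matrix.of x)ᵀ * (Matrix.of x * Matrix.of H) = Matrix.of H := by
        rw [← Matrix.mul_assoc, h, Matrix.one_mul]
      funext i j
      have := congrFun (congrFun h2 i) j
      simpa [Matrix.mul_apply] using this }

theorem hasFDerivAt_Phi (x : Mat n) (h : (Matrix.of x)ᵀ * Matrix.of x = 1) :
    HasFDerivAt (Phi x) (mulT x h : Mat n →L[ℝ] Mat n) x := by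
  have hpr : ∀ i j : Fin n, HasFDerivAt (fun A : Mat n => A i j)
      ((ContinuousLinearMap.proj (R := ℝ) (φ := fun _ : Fin n => ℝ) j).comp
        (ContinuousLinearMap.proj (R := ℝ) (φ := fun _ : Fin n => Fin n → ℝ) i)) x := by
    intro i j
    exact ((ContinuousLinearMap.proj (R := ℝ) (φ := fun _ : Fin n => ℝ) j).comp
        (ContinuousLinearMap.proj (R := ℝ) (φ := fun _ : Fin n => Fin n → ℝ) i)).hasFDerivAt
  set P : Fin n → Fin n → (Mat n →L[ℝ] ℝ) := fun i j =>
    (ContinuousLinearMap.proj (R := ℝ) (φ := fun _ : Fin n => ℝ) j).comp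
        (ContinuousLinearMap.proj (R := ℝ) (φ := fun _ : Fin n => Fin n → ℝ) i) with hP
  have hPa : ∀ i j (H : Mat n), P i j H = H i j := fun i j H => rfl
  have hcomp : ∀ i j, HasFDerivAt (fun A : Mat n => Phi x A i j)
      ((1 / 2 : ℝ) • (∑ m, (x m i • P m j + x m j • P m i)) +
        (1 / 2 : ℝ) • ((∑ m, x m i • P m j) - ∑ m, x m j • P m i)) x := by
    intro i j
    have h1 : HasFDerivAt (fun A : Mat n => ∑ m, A m i * A m j)
        (∑ m, (x m i • P m j + x m j • P m i)) x :=
      HasFDerivAt.fun_sum fun m _ => (hpr m i).mul (hpr m j)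
    have h2 : HasFDerivAt (fun A : Mat n => ∑ m, x m i * A m j) (∑ m, x m i • P m j) x :=
      HasFDerivAt.fun_sum fun m _ => (hpr m j).const_mul (x m i)
    have h3 : HasFDerivAt (fun A : Mat n => ∑ m, A m i * x m j) (∑ m, x m j • P m i) x :=
      HasFDerivAt.fun_sum fun m _ => (hpr m i).mul_const (x m j)
    have h4 := ((h1.sub_const (if i = j then (1 : ℝ) else 0)).const_mul (1 / 2 : ℝ)).add
      ((h2.sub h3).const_mul (1 / 2 : ℝ))
    refine h4.congr_of_eventuallyEq (Filter.Eventually.of_forall fun A => ?_)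
    simp only [Phi, Pi.add_apply, Pi.sub_apply]
    ring
  have hrow : ∀ i, HasFDerivAt (fun A : Mat n => Phi x A i)
      (ContinuousLinearMap.pi fun j => ((1 / 2 : ℝ) • (∑ m, (x m i • P m j + x m j • P m i)) +
        (1 / 2 : ℝ) • ((∑ m, x m i • P m j) - ∑ m, x m j • P m i))) x := fun i =>
    hasFDerivAt_pi.2 fun j => hcomp i j
  have hall : HasFDerivAt (fun A : Mat n => Phi x A)
      (ContinuousLinearMap.pi fun i => ContinuousLinearMap.pi fun j =>
        ((1 / 2 : ℝ) • (∑ m, (x m i • P m j + x m j • P m i)) +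
        (1 / 2 : ℝ) • ((∑ m, x m i • P m j) - ∑ m, x m j • P m i))) x :=
    hasFDerivAt_pi.2 fun i => hrow i
  have heq : (mulT x h : Mat n →L[ℝ] Mat n) =
      (ContinuousLinearMap.pi fun i => ContinuousLinearMap.pi fun j =>
        ((1 / 2 : ℝ) • (∑ m, (x m i • P m j + x m j • P m i)) +
        (1 / 2 : ℝ) • ((∑ m, x m i • P m j) - ∑ m, x m j • P m i))) := by
    refine ContinuousLinearMap.ext fun H => ?_
    funext i j
    have e1 : (mulT x h : Mat n →L[ℝ] Mat n) H i j = ∑ m, x m i * H m j := rfl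
    rw [e1]
    simp only [ContinuousLinearMap.coe_pi', ContinuousLinearMap.add_apply,
      ContinuousLinearMap.smul_apply, ContinuousLinearMap.sub_apply, ContinuousLinearMap.sum_apply,
      hPa, smul_eq_mul, sum_add_distrib]
    ring
  rw [heq]
  exact hall

theorem submanifold_U : IsSubmanifold (Fintype.card (Pairs n)) (setU n) := by
  have hone : (1 : SpecialLinearGroup (Fin n) ℝ) ∈ setU n := by
    change (1 : Matrix (Fin n) (Fin n) ℝ)ᵀ * (1 : Matrix (Fin n) (Fin n) ℝ) = 1
    simp
  refine ⟨⟨entries 1, 1, hone, rfl⟩, ?_⟩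
  rintro _ ⟨B, hB, rfl⟩
  set x : Mat n := entries B with hx
  have hxo : (Matrix.of x)ᵀ * Matrix.of x = 1 := hB
  have hxdet : (Matrix.of x).det = 1 := B.2
  let U : Set (Mat n) := {A | 0 < (Matrix.of A).det}
  have hUo : IsOpen U := by
    apply isOpen_lt continuous_const
    exact Continuous.matrix_det (by fun_prop)
  have hxU : x ∈ U := by
    change 0 < (Matrix.of x).det
    rw [hxdet]; norm_num
  obtain ⟨e, hxe, heU, heΦ, h1, h2⟩ := exists_chart (contDiff_Phi x) (hasFDerivAt_Phi x hxo) hUo hxU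
  refine ⟨e, hxe, h1, h2, WU n, finrank_WU n, fun A hA => ?_⟩
  have hApos : 0 < (Matrix.of A).det := heU hA
  have hxx : ∀ i j, ∑ m, x m i * x m j = if i = j then 1 else 0 := by
    intro i j
    have := congrFun (congrFun hxo i) j
    rw [Matrix.mul_apply, Matrix.one_apply] at this
    simpa using this
  have hskew : ∀ (A : Mat n) (i j), Phi x A i j + Phi x A j i =
      (∑ m, A m i * A m j) - (if i = j then 1 else 0) := by
    intro A i j
    simp only [Phi]
    have e1 : ∑ m, A m j * A m i = ∑ m, A m i * A m j := sum_congr rfl fun m _ => mul_comm _ _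
    have e2 : ∑ m, x m j * A m i = ∑ m, A m i * x m j := sum_congr rfl fun m _ => mul_comm _ _
    have e3 : ∑ m, A m j * x m i = ∑ m, x m i * A m j := sum_congr rfl fun m _ => mul_comm _ _
    rw [e1, e2, e3]
    by_cases h : i = j
    · simp [h]; ring
    · simp [h, Ne.symm h]; ring
  have hmem : (e A - e x ∈ WU n) ↔ ∀ i j, ∑ m, A m i * A m j = if i = j then 1 else 0 := by
    rw [heΦ]
    have hx0 : ∀ i j, Phi x x i j + Phi x x j i = 0 := by
      intro i j
      rw [hskew, hxx, sub_self]
    constructor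
    · intro h i j
      have h3 := h i j
      have h4 := hskew A i j
      have h5 := hx0 i j
      simp only [Pi.sub_apply] at h3
      linarith
    · intro h i j
      have h4 := hskew A i j
      rw [h i j, sub_self] at h4
      have h5 := hx0 i j
      simp only [Pi.sub_apply]
      linarith
  rw [hmem, mem_entries_image]
  constructor
  · rintro ⟨_, hAo⟩ i j
    have hAo' : (Matrix.of A)ᵀ * Matrix.of A = 1 := hAo
    have := congrFun (congrFun hAo' i) j
    rw [Matrix.mul_apply, Matrix.one_apply] at this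
    simpa using this
  · intro h
    have hAo : (Matrix.of A)ᵀ * Matrix.of A = 1 := by
      ext i j
      rw [Matrix.mul_apply, Matrix.one_apply]
      simpa using h i j
    have hdet : (Matrix.of A).det = 1 := by
      have h3 := congrArg Matrix.det hAo
      rw [Matrix.det_mul, Matrix.det_transpose, Matrix.det_one] at h3
      nlinarith
    exact ⟨hdet, hAo⟩

end Q220.SLExp
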