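import Mathlib
import Pool.Agent.Q220.SLExp.Charts
import Pool.Agent.Y576.LE.Sharp

/-!
For `SL(2, ℝ)` every triple of submanifolds with the triple product property has total dimension at
most three.
-/

set_option autoImplicit false

namespace Q220.SLExp

open Finset Matrix Module Filter
open scoped ContDiff Topology

abbrev SL (n : ℕ) : Type := SpecialLinearGroup (Fin n) ℝ

/-- Local parametrisation of a submanifold. -/
theorem exists_param {n m : ℕ} {M : Set (SL n)} (h : IsSubmanifold m M) :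
    ∃ x ∈ M, ∃ (W : Submodule ℝ (Mat n)) (O : Set W) (p : W → SL n), finrank ℝ W = m ∧ IsOpen O ∧
      (0 : W) ∈ O ∧ ContinuousOn p O ∧ p 0 = x ∧ Set.InjOn p O ∧ ∀ w ∈ O, p w ∈ M := by
  classical
  obtain ⟨⟨_, x, hx, rfl⟩, h⟩ := h
  obtain ⟨e, hxe, -, -, W, hW, heW⟩ := h _ ⟨x, hx, rfl⟩
  let q : W → Mat n := fun w => e (entries x) + w
  have hq : Continuous q := continuous_const.add continuous_subtype_val
  let O : Set W := q ⁻¹' e.target
  have hO : IsOpen O := e.open_target.preimage hq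
  have h0 : (0 : W) ∈ O := by
    change q 0 ∈ e.target
    simpa [q] using e.map_source hxe
  have hmem : ∀ w ∈ O, e.symm (q w) ∈ entries '' M := by
    intro w hw
    have hw' : q w ∈ e.target := hw
    rw [heW _ (e.map_target hw'), e.right_inv hw']
    simp [q]
  choose! p hpM hp using hmem
  have hent : Function.Injective (entries (n := n)) := by
    intro A B hAB
    exact Subtype.ext hAB
  refine ⟨x, hx, W, O, p, hW, hO, h0, ?_, ?_, ?_, hpM⟩
  · have hind : Topology.IsInducing (entries (n := n)) := ⟨rfl⟩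
    rw [hind.continuousOn_iff]
    have h1 : ContinuousOn (fun w => e.symm (q w)) O :=
      e.continuousOn_symm.comp hq.continuousOn fun w hw => hw
    exact h1.congr fun w hw => hp w hw
  · apply hent
    rw [hp 0 h0]
    simp [q, e.left_inv hxe]
  · intro a ha b hb hab
    have h1 : e.symm (q a) = e.symm (q b) := by rw [← hp a ha, ← hp b hb, hab]
    have h2 := e.symm.injOn ha hb h1
    exact Subtype.ext (add_left_cancel h2)

theorem TripleProductProperty.rotate {G : Type*} [Group G] {S T U : Set G}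
    (h : TripleProductProperty S T U) : TripleProductProperty T U S := by
  intro t ht u hu s hs h1
  have h2 : s * t * u = 1 := by
    have h3 : t * u = s⁻¹ := eq_inv_of_mul_eq_one_left h1
    rw [mul_assoc, h3, mul_inv_cancel]
  obtain ⟨a, b, c⟩ := h s hs t ht u hu h2
  exact ⟨b, c, a⟩

/-- Coordinates on `SL(2, ℝ)` near the identity. -/
def coord (A : SL 2) : Fin 3 → ℝ := ![A.1 0 0, A.1 0 1, A.1 1 0]

theorem coord_inj {A B : SL 2} (hA : A.1 0 0 ≠ 0) (h : coord A = coord B) : A = B := by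
  have h0 : A.1 0 0 = B.1 0 0 := congrFun h 0
  have h1 : A.1 0 1 = B.1 0 1 := congrFun h 1
  have h2 : A.1 1 0 = B.1 1 0 := congrFun h 2
  have dA : A.1 0 0 * A.1 1 1 - A.1 0 1 * A.1 1 0 = 1 := by
    rw [← Matrix.det_fin_two]; exact A.2
  have dB : B.1 0 0 * B.1 1 1 - B.1 0 1 * B.1 1 0 = 1 := by
    rw [← Matrix.det_fin_two]; exact B.2
  have h3 : A.1 1 1 = B.1 1 1 := by
    apply mul_left_cancel₀ hA
    rw [← h0, ← h1, ← h2] at dB
    linarith
  apply Subtype.ext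
  ext i j
  fin_cases i <;> fin_cases j
  · exact h0
  · exact h1
  · exact h2
  · exact h3

theorem continuous_coord : Continuous coord := by
  have h : ∀ i j, Continuous (fun A : SL 2 => A.1 i j) := by
    intro i j
    have : Continuous (fun A : SL 2 => (A.1 : Matrix (Fin 2) (Fin 2) ℝ)) := continuous_subtype_val
    exact this.matrix_elem i j
  apply continuous_pi
  intro i
  fin_cases i
  · exact h 0 0
  · exact h 0 1
  · exact h 1 0

/-- The dimension bounds for pairs. -/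
theorem dims_two {S T U : Set (SL 2)} {m₁ m₂ m₃ : ℕ} (hS : IsSubmanifold m₁ S)
    (hT : IsSubmanifold m₂ T) (hU : IsSubmanifold m₃ U) (h : TripleProductProperty S T U) :
    m₁ + m₂ ≤ 3 ∧ (1 ≤ m₃ → m₁ + m₂ ≤ 2) := by
  obtain ⟨x, hx, W₁, O₁, p, hW₁, hO₁, h0₁, hpc, hp0, hpi, hpM⟩ := exists_param hS
  obtain ⟨y, hy, W₂, O₂, q, hW₂, hO₂, h0₂, hqc, hq0, hqi, hqM⟩ := exists_param hT
  obtain ⟨z, hz, W₃, O₃, r, hW₃, hO₃, h0₃, hrc, hr0, hri, hrM⟩ := exists_param hU
  let V : Set (W₁ × W₂) := O₁ ×ˢ O₂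
  have hV : IsOpen V := hO₁.prod hO₂
  let F : W₁ × W₂ → SL 2 := fun w => (x * (p w.1)⁻¹) * (q w.2 * y⁻¹)
  have hF : ContinuousOn F V := by
    apply ContinuousOn.mul
    · exact continuousOn_const.mul ((hpc.comp continuousOn_fst fun w hw => hw.1).inv)
    · exact (hqc.comp continuousOn_snd fun w hw => hw.2).mul continuousOn_const
  have hF0 : F 0 = 1 := by
    simp only [F, Prod.fst_zero, Prod.snd_zero, hp0, hq0]
    group
  let N : Set (SL 2) := {A | A.1 0 0 ≠ 0}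
  have hN : IsOpen N := by
    have h1 : Continuous (fun A : SL 2 => (A.1 : Matrix (Fin 2) (Fin 2) ℝ)) :=
      continuous_subtype_val
    exact isOpen_ne.preimage (h1.matrix_elem 0 0)
  have h1N : (1 : SL 2) ∈ N := by
    change (1 : Matrix (Fin 2) (Fin 2) ℝ) 0 0 ≠ 0
    simp
  let O : Set (W₁ × W₂) := V ∩ F ⁻¹' N
  have hO : IsOpen O := hF.isOpen_inter_preimage hV hN
  have h0O : (0 : W₁ × W₂) ∈ O := by
    refine ⟨⟨h0₁, h0₂⟩, ?_⟩
    change F 0 ∈ N
    rw [hF0]; exact h1N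
  have hinjF : Set.InjOn F V := by
    intro a ha b hb hab
    have h1 : p b.1 * (p a.1)⁻¹ * (q a.2 * (q b.2)⁻¹) * (z * z⁻¹) = 1 := by
      have e1 : p b.1 * (p a.1)⁻¹ * (q a.2 * (q b.2)⁻¹) * (z * z⁻¹) =
          p b.1 * x⁻¹ * F a * (y * (q b.2)⁻¹) := by
        simp only [F]; group
      rw [e1, hab]
      simp only [F]
      group
    obtain ⟨h2, h3, -⟩ := h _ ⟨p b.1, hpM _ hb.1, p a.1, hpM _ ha.1, rfl⟩ _
      ⟨q a.2, hqM _ ha.2, q b.2, hqM _ hb.2, rfl⟩ _ ⟨z, hz, z, hz, rfl⟩ h1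
    have h4 := hpi hb.1 ha.1 (mul_inv_eq_one.1 h2)
    have h5 := hqi ha.2 hb.2 (mul_inv_eq_one.1 h3)
    exact Prod.ext h4.symm h5
  have hc : ContinuousOn (fun w => coord (F w)) O :=
    continuous_coord.comp_continuousOn (hF.mono Set.inter_subset_left)
  have hi : Set.InjOn (fun w => coord (F w)) O := by
    intro a ha b hb hab
    exact hinjF ha.1 hb.1 (coord_inj ha.2 hab)
  have hfr : finrank ℝ (W₁ × W₂) = m₁ + m₂ := by rw [finrank_prod, hW₁, hW₂]
  have hle : m₁ + m₂ ≤ 3 := by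
    have := Pool.Agent.W964.LieExp.finrank_le_of_injOn O hO 0 h0O _ hc hi
    rw [hfr] at this
    simpa using this
  refine ⟨hle, fun hm₃ => ?_⟩
  by_contra hlt
  have heq : m₁ + m₂ = 3 := by omega
  have himg := Pool.Agent.Y576.LE.image_mem_nhds_of_injOn (W := Fin 3 → ℝ)
    (by rw [hfr, heq]; simp) O hO 0 h0O _ hc hi
  rw [hF0] at himg
  -- the image of `F` is a neighbourhood of `1`
  have hnb : F '' O ∈ 𝓝 (1 : SL 2) := by
    have h1 := continuous_coord.continuousAt.preimage_mem_nhds himg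
    have h2 : N ∈ 𝓝 (1 : SL 2) := hN.mem_nhds h1N
    filter_upwards [h1, h2] with g hg1 hg2
    obtain ⟨w, hw, hwg⟩ := hg1
    exact ⟨w, hw, coord_inj hw.2 hwg⟩
  obtain ⟨w, hw⟩ : ∃ w : W₃, w ≠ 0 := by
    have : Nontrivial W₃ := Module.nontrivial_of_finrank_pos (R := ℝ) (by rw [hW₃]; omega)
    exact exists_ne 0
  have htend : Tendsto (fun τ : ℝ => z * (r (τ • w))⁻¹) (𝓝 0) (𝓝 1) := by
    have h1 : ContinuousAt r ((0 : ℝ) • w) := by
      rw [zero_smul]
      exact hrc.continuousAt (hO₃.mem_nhds h0₃)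
    have h2 : ContinuousAt (fun τ : ℝ => τ • w) 0 := by fun_prop
    have h3 : ContinuousAt (fun τ : ℝ => r (τ • w)) 0 := ContinuousAt.comp (g := r) h1 h2
    have h4 : ContinuousAt (fun τ : ℝ => z * (r (τ • w))⁻¹) 0 := continuousAt_const.mul h3.inv
    have h5 := h4.tendsto
    simp only [zero_smul, hr0, mul_inv_cancel] at h5
    exact h5
  have hev1 : ∀ᶠ τ in 𝓝[≠] (0 : ℝ), z * (r (τ • w))⁻¹ ∈ F '' O := nhdsWithin_le_nhds (htend hnb)
  have hev2 : ∀ᶠ τ in 𝓝[≠] (0 : ℝ), τ • w ∈ O₃ := by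
    apply nhdsWithin_le_nhds
    have h2 : ContinuousAt (fun τ : ℝ => τ • w) 0 := by fun_prop
    apply h2.preimage_mem_nhds
    rw [zero_smul]
    exact hO₃.mem_nhds h0₃
  obtain ⟨τ, h1, h2, h3⟩ := (hev1.and (hev2.and self_mem_nhdsWithin)).exists
  obtain ⟨v, hv, hvF⟩ := h1
  have key := h (x * (p v.1)⁻¹) ⟨x, hx, _, hpM _ hv.1.1, rfl⟩ (q v.2 * y⁻¹)
    ⟨_, hqM _ hv.1.2, y, hy, rfl⟩ (r (τ • w) * z⁻¹) ⟨_, hrM _ h2, z, hz, rfl⟩ (by
      have e1 : x * (p v.1)⁻¹ * (q v.2 * y⁻¹) * (r (τ • w) * z⁻¹) = F v * (r (τ • w) * z⁻¹) := rfl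
      rw [e1, hvF]
      group)
  have h4 : r (τ • w) = r 0 := by
    rw [hr0]
    exact mul_inv_eq_one.1 key.2.2
  have h5 := hri h2 h0₃ h4
  rcases smul_eq_zero.1 h5 with h6 | h6
  · exact h3 h6
  · exact hw h6

/-- Every triple in `SL(2, ℝ)` has total dimension at most three. -/
theorem total_two {S T U : Set (SL 2)} {m₁ m₂ m₃ : ℕ} (hS : IsSubmanifold m₁ S)
    (hT : IsSubmanifold m₂ T) (hU : IsSubmanifold m₃ U) (h : TripleProductProperty S T U) :
    m₁ + m₂ + m₃ ≤ 3 := by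
  have h1 := dims_two hS hT hU h
  have h2 := dims_two hT hU hS h.rotate
  have h3 := dims_two hU hS hT h.rotate.rotate
  omega

end Q220.SLExp
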